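import Pool.Agent.Helper89.Vol5.Goals

/-! # MP_cd13d2_co, project V58, packet HADT: Hadamard's inequality with a triangle -/

set_option autoImplicit false

namespace Pool.Agent.Helper14.Vol5.PkHADT

open Pool.Agent.Helper89.Vol5 Pool.Agent.Helper86.Poly

theorem det_eq (u v w z t : EuclideanSpace ℝ (Fin 5)) :
    (EuclideanSpace.basisFun (Fin 5) ℝ).toBasis.det ![u, v, w, z, t] = dt u v w z t := by
  rw [Module.Basis.det_apply]
  unfold dt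
  rw [← Matrix.det_transpose]
  congr 1
  ext i j
  fin_cases i <;> fin_cases j <;> simp [Module.Basis.toMatrix_apply]

theorem had (u v w z t : EuclideanSpace ℝ (Fin 5)) :
    |dt u v w z t| ≤ ‖u‖ * ‖v‖ * (‖w‖ * ‖z‖ * ‖t‖) := by
  have : Fact (Module.finrank ℝ (EuclideanSpace ℝ (Fin 5)) = 5) := ⟨by simp⟩
  have h := (EuclideanSpace.basisFun (Fin 5) ℝ).toBasis.orientation.abs_volumeForm_apply_le
    ![u, v, w, z, t]
  rw [Orientation.volumeForm_robust _ (EuclideanSpace.basisFun (Fin 5) ℝ) rfl, det_eq] at h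
  refine h.trans (le_of_eq ?_)
  simp [Fin.prod_univ_succ]
  ring

theorem shear (u v w z t : EuclideanSpace ℝ (Fin 5)) (c : ℝ) :
    dt u (v - c • u) w z t = dt u v w z t := by
  rw [← det_eq, ← det_eq]
  obtain ⟨f, hf⟩ : ∃ f : (EuclideanSpace ℝ (Fin 5)) [⋀^Fin 5]→ₗ[ℝ] ℝ,
    f = (EuclideanSpace.basisFun (Fin 5) ℝ).toBasis.det := ⟨_, rfl⟩
  rw [← hf]
  have e : ∀ a : EuclideanSpace ℝ (Fin 5), ![u, a, w, z, t] =
      Function.update ![u, v, w, z, t] 1 a := by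
    intro a
    funext i
    fin_cases i <;> simp [Function.update]
  have h0 : f ![u, u, w, z, t] = 0 :=
    f.map_eq_zero_of_eq ![u, u, w, z, t] (i := 0) (j := 1) rfl (by decide)
  rw [e (v - c • u), AlternatingMap.map_update_sub, AlternatingMap.map_update_smul, ← e, ← e, h0]
  simp

theorem thm : Pool.Agent.Helper89.Vol5.G_HADT := by
  intro u v w z t hu hv huv hw hz ht
  have hx0 := norm_nonneg u
  have hy0 := norm_nonneg v
  have hz0 := norm_nonneg (u - v)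
  have hkey : ∃ v' : EuclideanSpace ℝ (Fin 5), dt u v' w z t = dt u v w z t ∧
      (‖u‖ * ‖v'‖) ^ 2 ≤ 3 / 4 := by
    rcases eq_or_ne u 0 with h | h
    · refine ⟨v, rfl, ?_⟩
      rw [h]
      norm_num
    · refine ⟨v - (inner ℝ u v / ‖u‖ ^ 2) • u, shear _ _ _ _ _ _, ?_⟩
      have hn : 0 < ‖u‖ := norm_pos_iff.2 h
      obtain ⟨p, hp⟩ : ∃ p : ℝ, p = inner ℝ u v := ⟨_, rfl⟩
      have h1 : ‖u - v‖ ^ 2 = ‖u‖ ^ 2 - 2 * p + ‖v‖ ^ 2 := by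
        rw [hp]
        exact norm_sub_sq_real u v
      have h2 : ‖v - (inner ℝ u v / ‖u‖ ^ 2) • u‖ ^ 2 = ‖v‖ ^ 2 - p ^ 2 / ‖u‖ ^ 2 := by
        rw [norm_sub_sq_real, inner_smul_right, norm_smul, real_inner_comm u v, ← hp, mul_pow,
          Real.norm_eq_abs, sq_abs]
        field_simp
        ring
      rw [mul_pow, h2]
      have h3 : ‖u‖ ^ 2 * (‖v‖ ^ 2 - p ^ 2 / ‖u‖ ^ 2) = ‖u‖ ^ 2 * ‖v‖ ^ 2 - p ^ 2 := by
        field_simp
      rw [h3]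
      obtain ⟨x, hx⟩ : ∃ x : ℝ, x = ‖u‖ ^ 2 := ⟨_, rfl⟩
      obtain ⟨y, hy⟩ : ∃ y : ℝ, y = ‖v‖ ^ 2 := ⟨_, rfl⟩
      obtain ⟨s, hs⟩ : ∃ s : ℝ, s = ‖u - v‖ ^ 2 := ⟨_, rfl⟩
      have bx : 0 ≤ x ∧ x ≤ 1 := by
        rw [hx]
        exact ⟨by positivity, pow_le_one₀ hx0 hu⟩
      have bY : 0 ≤ y ∧ y ≤ 1 := by
        rw [hy]
        exact ⟨by positivity, pow_le_one₀ hy0 hv⟩
      have bs : 0 ≤ s ∧ s ≤ 1 := by
        rw [hs]
        exact ⟨by positivity, pow_le_one₀ hz0 huv⟩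
      rw [← hs, ← hx, ← hy] at h1
      rw [← hx, ← hy]
      have e1 : x * y ≤ 1 := mul_le_one₀ bx.2 bY.1 bY.2
      have e2 : y * s ≤ 1 := mul_le_one₀ bY.2 bs.1 bs.2
      have e3 : x * s ≤ 1 := mul_le_one₀ bx.2 bs.1 bs.2
      have e4 : p = (x + y - s) / 2 := by linarith
      rw [e4]
      nlinarith [sq_nonneg (x - y), sq_nonneg (y - s), sq_nonneg (x - s)]
  obtain ⟨v', h1, h2⟩ := hkey
  rw [← h1]
  have h3 := had u v' w z t
  have hq : 0 ≤ ‖u‖ * ‖v'‖ := by positivity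
  have h4 : ‖w‖ * ‖z‖ * ‖t‖ ≤ 1 :=
    mul_le_one₀ (mul_le_one₀ hw (norm_nonneg _) hz) (norm_nonneg _) ht
  have h5 : ‖u‖ * ‖v'‖ * (‖w‖ * ‖z‖ * ‖t‖) ≤ ‖u‖ * ‖v'‖ * 1 := mul_le_mul_of_nonneg_left h4 hq
  have h6 : ‖u‖ * ‖v'‖ ≤ 0.8661 := by
    by_contra hc
    push Not at hc
    nlinarith
  linarith

end Pool.Agent.Helper14.Vol5.PkHADT
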